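import Pool.Agent.W243.TD.Use
import Pool.Agent.W243.TD.Trdeg
import Pool.Agent.W242.GG.Count

/-!
# Exponentials in a field of transcendence degree one: seven times three numbers

`no73`: the 21 numbers `e ^ (x_j y_p)` (seven linearly independent `x_j`, three linearly independent
`y_p`, all arbitrary complex numbers) are not all algebraic over `ℚ(θ)`.
-/

set_option autoImplicit false

namespace Pool.Agent.Q213.PT

open Module Pool.Agent.W243.TD

/-- a subgroup of `ℤ ^ n` with an injective homomorphism to `ℤ` has rank at most one -/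
theorem rank_le_one {n : ℕ} (G : AddSubgroup (Fin n → ℤ)) (f : G →+ ℤ)
    (hf : Function.Injective f) : finrank ℤ G ≤ 1 := by
  have h := LinearMap.finrank_le_finrank_of_injective (f := f.toIntLinearMap) hf
  simpa using h

theorem two_pi_I_ne : (2 * (Real.pi : ℂ) * Complex.I) ≠ 0 := by
  simp [Real.pi_ne_zero, Complex.I_ne_zero]

/-- the map `m ↦ n` if `c m ∈ 2 π i ℤ` -/
theorem rank_le_one' {n : ℕ} (G : AddSubgroup (Fin n → ℤ)) (x : Fin n → ℂ)
    (hx : LinearIndependent ℚ x) (c : ℂ) (hc : c ≠ 0)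
    (h : ∀ m ∈ G, ∃ k : ℤ, (∑ j, (m j : ℂ) * x j) * c = k * (2 * Real.pi * Complex.I)) :
    finrank ℤ G ≤ 1 := by
  choose! k hk using h
  have hadd : ∀ m ∈ G, ∀ m' ∈ G, k (m + m') = k m + k m' := by
    intro m hm m' hm'
    have h1 := hk _ (G.add_mem hm hm')
    have h2 := hk m hm
    have h3 := hk m' hm'
    have h4 : (∑ j, (((m + m') j : ℤ) : ℂ) * x j) = (∑ j, (m j : ℂ) * x j) +
        ∑ j, (m' j : ℂ) * x j := by
      rw [← Finset.sum_add_distrib]
      refine Finset.sum_congr rfl fun j _ => ?_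
      push_cast [Pi.add_apply]
      ring
    rw [h4, add_mul, h2, h3, ← add_mul] at h1
    have h5 := mul_right_cancel₀ two_pi_I_ne h1
    exact_mod_cast h5.symm
  let f : G →+ ℤ := AddMonoidHom.mk' (fun m => k m.1) (fun a b => hadd _ a.2 _ b.2)
  refine rank_le_one G f ?_
  rw [injective_iff_map_eq_zero]
  rintro ⟨m, hm⟩ h0
  have h0' : k m = 0 := h0
  have h1 := hk m hm
  rw [h0'] at h1
  simp only [Int.cast_zero, zero_mul, mul_eq_zero, hc, or_false] at h1
  have h2 : ∀ j, (m j : ℚ) = 0 := by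
    have h3 := Fintype.linearIndependent_iff.1 hx (fun j => (m j : ℚ)) (by
      rw [← h1]
      refine Finset.sum_congr rfl fun j _ => ?_
      rw [Rat.smul_def]
      push_cast
      rfl)
    exact h3
  apply Subtype.ext
  funext j
  have := h2 j
  exact_mod_cast this

theorem no73 {θ : ℂ} (hθ : Transcendental ℚ θ) (x : Fin 7 → ℂ) (y : Fin 3 → ℂ)
    (hx : LinearIndependent ℚ x) (hy : LinearIndependent ℚ y)
    (h : ∀ j p, Al θ (Complex.exp (x j * y p))) : False := by
  obtain ⟨Af, Rm, W0, G0, h1, h2, h3, h4, h5⟩ := obs θ hθ 1 7 3 ∅ 0 (by norm_num)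
    (fun _ j => x j) (fun _ p => y p) (Or.inl rfl) (by simp) (by simpa using h) 70 21 49
    (by norm_num) (by norm_num)
  have hAf : Af = ⊥ := by
    rw [Submodule.eq_bot_iff]
    intro a ha
    funext i
    exact h1 a ha i (by simp)
  have hRm : Rm ≠ ⊥ := fun hc => h2 ⟨hAf, hc⟩
  have key : ∀ s ∈ G0, ∀ m ∈ Rm, ∃ n : ℤ, (∑ j, (m j : ℂ) * x j) * (∑ p, (s p : ℂ) * y p) =
      n * (2 * Real.pi * Complex.I) := by
    intro s hs m hm
    obtain ⟨n, hn⟩ := ((h4 s).1 hs).2 m hm
    refine ⟨n, ?_⟩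
    rw [← hn, Finset.sum_mul_sum]
    refine Finset.sum_congr rfl fun j _ => Finset.sum_congr rfl fun p _ => ?_
    simp only [Finset.univ_unique, Finset.sum_singleton]
    ring
  have hne : ∀ {n : ℕ} (z : Fin n → ℂ) (_ : LinearIndependent ℚ z) (m : Fin n → ℤ), m ≠ 0 →
      (∑ j, (m j : ℂ) * z j) ≠ 0 := by
    intro n z hz m hm h0
    apply hm
    have h3 := Fintype.linearIndependent_iff.1 hz (fun j => (m j : ℚ)) (by
      rw [← h0]
      refine Finset.sum_congr rfl fun j _ => ?_
      rw [Rat.smul_def]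
      push_cast
      rfl)
    funext j
    have := h3 j
    exact_mod_cast this
  have hA0 : finrank ℂ Af = 0 := by rw [hAf]; exact finrank_bot ℂ _
  have hR7 : finrank ℤ Rm ≤ 7 := by
    have := Submodule.finrank_le (R := ℤ) (M := Fin 7 → ℤ) (AddSubgroup.toIntSubmodule Rm)
    rw [Module.finrank_fin_fun] at this
    exact this
  have hG3 : finrank ℤ G0 ≤ 3 := by
    have := Submodule.finrank_le (R := ℤ) (M := Fin 3 → ℤ) (AddSubgroup.toIntSubmodule G0)
    rw [Module.finrank_fin_fun] at this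
    exact this
  have hR1 : 1 ≤ finrank ℤ Rm := by
    rw [Nat.one_le_iff_ne_zero]
    intro h0
    apply hRm
    have h6 : Subsingleton Rm := by
      have : finrank ℤ (AddSubgroup.toIntSubmodule Rm) = 0 := h0
      rw [Module.finrank_eq_zero_iff_of_free] at this
      exact this
    rw [AddSubgroup.eq_bot_iff_forall]
    intro m hm
    have := Subsingleton.elim (⟨m, hm⟩ : Rm) 0
    exact congrArg Subtype.val this
  obtain ⟨m0, hm0, hm0'⟩ : ∃ m ∈ Rm, m ≠ 0 := by
    by_contra hc
    push Not at hc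
    exact hRm ((AddSubgroup.eq_bot_iff_forall _).2 hc)
  have hGle : finrank ℤ G0 ≤ 1 := by
    refine rank_le_one' G0 y hy _ (hne x hx m0 hm0') fun s hs => ?_
    obtain ⟨n, hn⟩ := key s hs m0 hm0
    exact ⟨n, by rw [mul_comm]; exact hn⟩
  rw [hA0] at h5
  by_cases hG : G0 = ⊥
  · have hG0 : finrank ℤ G0 = 0 := by
      rw [hG]
      have : finrank ℤ (AddSubgroup.toIntSubmodule (⊥ : AddSubgroup (Fin 3 → ℤ))) = 0 := by
        simp
      exact this
    omega
  · obtain ⟨s0, hs0, hs0'⟩ : ∃ s ∈ G0, s ≠ 0 := by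
      by_contra hc
      push Not at hc
      exact hG ((AddSubgroup.eq_bot_iff_forall _).2 hc)
    have hRle : finrank ℤ Rm ≤ 1 := by
      refine rank_le_one' Rm x hx _ (hne y hy s0 hs0') fun m hm => key s0 hs0 m hm
    omega

end Pool.Agent.Q213.PT
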